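import Pool.Agent.Q18.HQ.Stmts

set_option autoImplicit false

namespace Pool.Agent.Q68.HQ.TO1a

open Pool.Agent.Q18.HQ

private def S : Finset (ZMod 64) := Finset.univ.image fun x : ZMod 64 => x ^ 2

private theorem chk1 : ∀ A ∈ S, ∀ B ∈ S, ∀ C ∈ S, (32 * A ≠ 0 ∨ 32 * B ≠ 0) →
    C ≠ 2 * A ^ 2 + (-72579) * A * B + 562500000 * B ^ 2 := by decide +kernel

private theorem chk2 : ∀ A ∈ S, ∀ B ∈ S, ∀ C ∈ S, (32 * A ≠ 0 ∨ 32 * B ≠ 0) →
    C ≠ 10 * A ^ 2 + (-72579) * A * B + 112500000 * B ^ 2 := by decide +kernel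

private theorem memS (x : ZMod 64) : x ^ 2 ∈ S := Finset.mem_image_of_mem _ (Finset.mem_univ x)

private theorem odd_sq : ∀ x : ZMod 64, 32 * x ≠ 0 → 32 * x ^ 2 ≠ 0 := by decide +kernel

private theorem odd_of (x : ℤ) (h : ¬ (2 : ℤ) ∣ x) : (32 : ZMod 64) * (x : ZMod 64) ≠ 0 := by
  intro h0
  apply h
  have h1 : ((32 * x : ℤ) : ZMod 64) = 0 := by push_cast; exact h0
  rw [ZMod.intCast_zmod_eq_zero_iff_dvd] at h1
  push_cast at h1
  omega

private theorem odd_or (M e : ℤ) (h : IsCoprime M e) : ¬ (2 : ℤ) ∣ M ∨ ¬ (2 : ℤ) ∣ e := by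
  by_contra hc
  push Not at hc
  have := h.isUnit_of_dvd' hc.1 hc.2
  rw [Int.isUnit_iff] at this
  omega

theorem main : Pool.Agent.Q18.HQ.TaskO1a := by
  constructor
  · intro M e N hc hN
    have h1 : ((N ^ 2 : ℤ) : ZMod 64) = ((2 * M ^ 4 + (-72579) * M ^ 2 * e ^ 2 + 562500000 * e ^ 4 : ℤ) : ZMod 64) := by
      rw [hN]
    push_cast at h1
    refine chk1 _ (memS (M : ZMod 64)) _ (memS (e : ZMod 64)) _ (memS (N : ZMod 64)) ?_ ?_
    · rcases odd_or M e hc with h | h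
      · exact Or.inl (odd_sq _ (odd_of M h))
      · exact Or.inr (odd_sq _ (odd_of e h))
    · rw [h1]
      ring
  · intro M e N hc hN
    have h1 : ((N ^ 2 : ℤ) : ZMod 64) = ((10 * M ^ 4 + (-72579) * M ^ 2 * e ^ 2 + 112500000 * e ^ 4 : ℤ) : ZMod 64) := by
      rw [hN]
    push_cast at h1
    refine chk2 _ (memS (M : ZMod 64)) _ (memS (e : ZMod 64)) _ (memS (N : ZMod 64)) ?_ ?_
    · rcases odd_or M e hc with h | h
      · exact Or.inl (odd_sq _ (odd_of M h))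
      · exact Or.inr (odd_sq _ (odd_of e h))
    · rw [h1]
      ring

end Pool.Agent.Q68.HQ.TO1a
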